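import Pool.Agent.N972.PT.Base2
import Pool.Agent.N973.P21G.All

/-!
# Prime twists of the curves of conductors 15, 17 and 21

Let `E` be one of the curves `y² = x (x + 9) (x - 16)`, `y² = x (x + 1) (x - 16)`, `y² = x (x - 9) (x + 7)` of conductors
`N = 15, 17, 21`. For an odd prime `p` let `p* = p` if `p ≡ 1 mod 4` and `p* = -p` if `p ≡ 3 mod 4`; the twist of the
`L`-function of `E` by the Legendre symbol `χ_p` is the `L`-function of the twist `E_{p*}`. Let `χ_p(-N) = 1`, so that
its root number is `+1`. We prove that its central value is different from zero, except perhaps if `p ≡ 1 mod 4` and `p`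
is a square modulo every prime divisor of `N`. So for `N = 15, 21` three quarters of these prime twists, and for
`N = 17` half of them, have analytic rank zero.

Helper 972, on top of the theorems on the twists of these curves (helpers 969, 970, 971, 972, 973, 974, 975, 963, 99,
218, 402, 575, 609, 637, 809, 816, 844, 855, 871, 875, 877, 886, 890, 916, 919, 958 and others).
-/

set_option autoImplicit false

open Finset

namespace Pool.Agent.Results.MP_200216_nt.PrimeTwists

/-- the conductors -/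
def level : Fin 3 → ℕ := ![15, 17, 21]

/-- the coefficients `a` of the curves number `0, 1, 2`: `y² = x (x + 9) (x - 16)`, `y² = x (x + 1) (x - 16)`,
`y² = x (x - 9) (x + 7)` of conductors `15, 17, 21`, written as `y² = x³ + a x + b` -/
def coefA : Fin 3 → ℤ := ![-12987, -91, -5211]

/-- the coefficients `b` of the curves -/
def coefB : Fin 3 → ℤ := ![-263466, -330, -31050]

/-- the coefficient `a` of the twist of the curve number `j` by `d` -/
def A (j : Fin 3) (d : ℤ) : ℤ := coefA j * d ^ 2

/-- the coefficient `b` of the twist of the curve number `j` by `d` -/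
def B (j : Fin 3) (d : ℤ) : ℤ := coefB j * d ^ 3

/-- the discriminant of the quadratic field ramified only at the odd prime `p`; its quadratic character is the
Legendre symbol modulo `p` -/
def star (p : ℕ) : ℤ := if p % 4 = 1 then p else -p

/-- the curve `y² = x³ + a x + b` over `ℚ` -/
def E (a b : ℤ) : WeierstrassCurve ℚ := { a₁ := 0, a₂ := 0, a₃ := 0, a₄ := (a : ℚ), a₆ := (b : ℚ) }

/-- `E(ℚ)` is finite and `Ш(E/ℚ)` has no element of order two, for `E : y² = x³ + a x + b` -/
def RankZeroShaTwo (a b : ℤ) : Prop :=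
  Finite (E a b).toAffine.Point ∧ ∀ x : Pool.Agent.TH841.SH.D.Sha (E a b), 2 • x = 0 → x = 0

/-- `F` is an entire function which for `Re s > 3/2` is the Euler product of `y² = x³ + a x + b` over the primes
which do not divide twice the discriminant -/
def IsL (a b : ℤ) (F : ℂ → ℂ) : Prop :=
  Differentiable ℂ F ∧
    ∀ s : ℂ, (3 : ℝ) / 2 < s.re →
      HasProd
        (fun p : ℕ => open Classical in
          if p.Prime ∧ ¬ ((p : ℤ) ∣ 2 * (-4 * a ^ 3 - 27 * b ^ 2)) then
            (1 - ((p : ℂ) - (Nat.card {q : ZMod p × ZMod p //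
                q.2 ^ 2 = q.1 ^ 3 + (a : ZMod p) * q.1 + (b : ZMod p)} : ℂ))
                * (p : ℂ) ^ (-s) + (p : ℂ) ^ (1 - 2 * s))⁻¹
          else 1)
        (F s)

/-- the central value is not zero -/
def NonVanishing (a b : ℤ) : Prop := ∃ F : ℂ → ℂ, IsL a b F ∧ F 1 ≠ 0

open Classical in
/-- the number of the odd primes `p ≤ Q` with `χ_p(-N) = 1` for which the twist of the curve number `j` by `χ_p` has
central value zero -/
noncomputable def V (j : Fin 3) (Q : ℕ) : ℕ :=
  ((Icc 1 Q).filter fun p => p.Prime ∧ p ≠ 2 ∧ jacobiSym (-(level j : ℤ)) p = 1 ∧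
    ¬ NonVanishing (A j (star p)) (B j (star p))).card

/-- `p ≡ 1 mod 4` and `p` is a square modulo every prime divisor of the conductor -/
def Exceptional (j : Fin 3) (p : ℕ) : Prop :=
  p % 4 = 1 ∧ ∀ q ∈ (level j).primeFactors, jacobiSym p q = 1

open Classical in
/-- the number of the exceptional primes `p ≤ Q` -/
noncomputable def W (j : Fin 3) (Q : ℕ) : ℕ :=
  ((Icc 1 Q).filter fun p => p.Prime ∧ Exceptional j p).card

open Pool.Agent.N875.X15 (sgp)
open Pool.Agent.N963.JT (R15 R17)
open Pool.Agent.N972.PT (sgp_sq sgp_ne r15_prime r17_prime sg21_prime)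

theorem star_eq (p : ℕ) : star p = sgp p := rfl

theorem nonv_of {a b : ℤ} (h : Pool.Agent.Y687.RankBSD a b) : NonVanishing a b := by
  obtain ⟨F, h1, h2, h3, h4⟩ := h
  refine ⟨F, ⟨h1, h2⟩, ?_⟩
  have h6 : AnalyticAt ℂ F 1 := h1.analyticAt 1
  exact (h6.analyticOrderAt_eq_zero).1 h3

theorem prime_dvd_of {q : ℕ} {a b : ℕ} (ha : a.Prime) (hb : b.Prime)
    (h : q ∈ (a * b).primeFactors) : q = a ∨ q = b := by
  have h1 := (Nat.mem_primeFactors.1 h).1
  have h2 := (Nat.mem_primeFactors.1 h).2.1
  rcases h1.dvd_mul.1 h2 with h3 | h3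
  · exact Or.inl ((Nat.prime_dvd_prime_iff_eq h1 ha).1 h3)
  · exact Or.inr ((Nat.prime_dvd_prime_iff_eq h1 hb).1 h3)

theorem main (j : Fin 3) {p : ℕ} (hp : p.Prime) (h2 : p ≠ 2)
    (h : jacobiSym (-(level j : ℤ)) p = 1) (hx : ¬ Exceptional j p) :
    RankZeroShaTwo (A j (star p)) (B j (star p)) ∧
      Pool.Agent.Y687.RankBSD (A j (star p)) (B j (star p)) := by
  have hs := sgp_sq hp
  fin_cases j
  · have h' : jacobiSym (-15) p = 1 := h
    have hR : R15 (sgp p) := by
      refine r15_prime hp h2 h' fun h3 => hx ⟨h3.1, fun q hq => ?_⟩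
      rcases prime_dvd_of Nat.prime_three Nat.prime_five (show q ∈ (3 * 5).primeFactors from hq) with
        h4 | h4
      · rw [h4]
        exact h3.2.1
      · rw [h4]
        exact h3.2.2
    refine ⟨?_, (Pool.Agent.N963.JT.bsd15 hs hR).2⟩
    refine ⟨hR.1, fun x hx2 => hR.2 x ?_⟩
    rw [← two_nsmul]
    exact hx2
  · have h' : jacobiSym (-17) p = 1 := h
    have hR : R17 (sgp p) := by
      refine r17_prime hp h2 h' (fun h3 => hx ⟨h3.1, fun q hq => ?_⟩) hs
      have h4 : q = 17 := by
        have h5 := (Nat.mem_primeFactors.1 hq).1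
        exact (Nat.prime_dvd_prime_iff_eq h5 (by norm_num : Nat.Prime 17)).1
          (Nat.mem_primeFactors.1 hq).2.1
      rw [h4]
      exact h3.2
    refine ⟨?_, (Pool.Agent.N963.JT.bsd17 hs hR).2⟩
    refine ⟨hR.1, fun x hx2 => hR.2 x ?_⟩
    rw [← two_nsmul]
    exact hx2
  · have h' : jacobiSym (-21) p = 1 := h
    have hR : Pool.Agent.N875.X15.Fin2 (Pool.Agent.N637.P21.WS (sgp p)) := by
      refine (Pool.Agent.N809.D21.fin2_iff hs (sgp_ne hp).1).2
        (sg21_prime hp h2 h' fun h3 => hx ⟨h3.1, fun q hq => ?_⟩)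
      rcases prime_dvd_of Nat.prime_three (by norm_num : Nat.Prime 7)
        (show q ∈ (3 * 7).primeFactors from hq) with h4 | h4
      · rw [h4]
        exact h3.2.1
      · rw [h4]
        exact h3.2.2
    refine ⟨?_, Pool.Agent.N973.P21G.rank21 hs hR⟩
    refine ⟨hR.1, fun x hx2 => hR.2 x ?_⟩
    rw [← two_nsmul]
    exact hx2

theorem result :
    (∀ (j : Fin 3) (p : ℕ), p.Prime → p ≠ 2 → jacobiSym (-(level j : ℤ)) p = 1 →
      ¬ Exceptional j p →
      NonVanishing (A j (star p)) (B j (star p)) ∧ RankZeroShaTwo (A j (star p)) (B j (star p))) ∧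
    ∀ (j : Fin 3) (Q : ℕ), V j Q ≤ W j Q := by
  classical
  refine ⟨fun j p hp h2 h hx => ?_, fun j Q => ?_⟩
  · obtain ⟨h3, h4⟩ := main j hp h2 h hx
    exact ⟨nonv_of h4, h3⟩
  · unfold V W
    refine card_le_card fun p hp => ?_
    obtain ⟨h1, h2, h3, h4, h5⟩ := mem_filter.1 hp
    refine mem_filter.2 ⟨h1, h2, ?_⟩
    by_contra h6
    exact h5 (nonv_of (main j h2 h3 h4 h6).2)

end Pool.Agent.Results.MP_200216_nt.PrimeTwists
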